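import Mathlib
import Pool.Agent.Y229.CF.IdX

/-!
# The motivic monodromy conjecture at the origin for ideals nondegenerate for the compact faces

Let `I = (f_1, ..., f_r)`, `f_i = ∑_{π j = i} c_j x ^ (m_j)`, `c_j ≠ 0`, be generated by polynomials over
a field `k ⊂ ℂ` which are nondegenerate with respect to the COMPACT faces of their Newton polyhedra at
the origin (the usual local nondegeneracy of a system): for every `w` with positive coordinates the
initial forms of some of the `f_i` have no common zero in the torus at which their differentials
are dependent. There is no condition on the terms above the compact faces. The intersection of the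
`f_i = 0` need not be complete, and the singularities of the scheme `V(I)` are arbitrary.

For a facet of the Newton polyhedron of `∑ y_i f_i` with inner normal vector `a ∈ ℕ ^ (n + r)` let
`N_a = min ⟨a, ·⟩ > 0` be its order and `-|a| / N_a` its candidate pole. Facets which are pyramids
with an apex `y_i x ^ (m_j)` are arbitrary. Every other candidate pole is assumed to be an integer, or
to agree modulo integers with the candidate pole of a face which contains a suitable simplex which
is not B1, or to satisfy the following: at every vertex the facets of this candidate pole through the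
vertex are simplices or B1 in a common direction, which may depend on the vertex (or simplices or
pyramids with an apex `y_i x ^ (m_j)`). Only the vertices of the Newton polyhedra count in the third
case. In particular all simplicial Newton polyhedra are allowed, B1-facets included.

Then the local motivic zeta function of `I` at the origin,
`𝕃 ^ (-n) ∑_{N ≥ 1} [𝒳_N] (𝕃 ^ (-n) T) ^ N` with `𝒳_N` the `N`-jets with origin `0` on which `I`
has order `N`, lies in the ring generated by `T` and finitely many `1 / (1 - 𝕃 ^ a T ^ b)` with
`a < 0 < b` such that `a / b` is an integer or the local Bernstein-Sato polynomial of the ideal `I` at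
the origin (Budur, Mustata and Saito) has a root in `a / b + ℤ`; then `exp (2 π i a / b)` is an
eigenvalue of Verdier's monodromy at points over points near the origin.

The starting hand-in `NondegenerateIdeals` needs nondegeneracy for all the faces of the Newton
POLYTOPES (which is a condition on all the terms) and excludes the B1-facets; here the
nondegeneracy is the local one, only the vertices count, and there may be B1-facets.

Method. The polynomial `∑ y_i f_i` is nondegenerate for the compact faces of its Newton polyhedron; its
arcs `(x, y)` with leading coefficient `1`, `x(0) = 0` and `y` arbitrary give `Z_I`. The functional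
equation of the Bernstein-Sato polynomial of `I` gives a relation of the monomials by a deformation
to very general coefficients over `ℂ⟦τ⟧`, modulo terms divisible by monomials of large degree.
-/

set_option autoImplicit false

namespace Pool.Agent.Results.MP_4e5fcd_ag.CompactFacesIdeals

open MvPolynomial Pool.Agent.W428.MOT Pool.Agent.W749.JI
open Pool.Agent.Y229.CF (NondegIC)
open Pool.Agent.Y229 (SpansI)
open Pool.Agent.TH216.HDNL (HypVIL)

/-- **The motivic monodromy conjecture at the origin (Bernstein-Sato form modulo integers) for the
ideals `(f_1, ..., f_r)`, `f_i = ∑_{π j = i} c_j x ^ (m_j)`, which are nondegenerate for the compact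
faces; conditions on the vertices of the Newton polyhedra.**

`NondegIC π m c` says that for every linear form `w` with positive coordinates and every nonempty set
`Q` of indices the parts of the `f_i`, `i ∈ Q`, on which `w` is minimal have no common zero in the
torus at which their differentials are linearly dependent. `V` is a set of indices such that the
Newton polyhedron of each `f_i` is `conv {m_j, π j = i, j ∈ V} + ℝ_{≥ 0} ^ n` (`SpansI π m V`), for
instance the set of the vertices. `cay π m j = (m_j, e_{π j})` are the exponents of `∑ y_i f_i`.

With `v = cay π m`, `HypVIL v V` says that for every ray `a` of the normal fan of the Newton polyhedron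
of the `v j` (`IsRay v a`) with `N_a := ordA v a = min_j ⟨a, v j⟩ > 0` one of the following holds:
* `YApexVL v V a`: the facet is B1 in the direction of some `y_i` (`B1VL`, see below);
* `N_a` divides `|a|` (the candidate pole is an integer);
* `|a| / N_a - |a'| / N_{a'} ∈ ℤ` for some `a' ∈ ℕ ^ (n + r)` with `N_{a'} > 0` and `NonB1 v True a'`:
  there is a set `J` of `#{i | a' i ≠ 0}` elements with `⟨a', v j⟩ = N_{a'}` for `j ∈ J` such that the
  vectors `(v j i)_{a' i ≠ 0}`, `j ∈ J`, are linearly independent, such that no variable with
  `a' i ≠ 0` occurs in exactly one of the monomials of exponents `v j`, `j ∈ J`, and there with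
  exponent `1`, and such that (a condition only if some `a' i = 0`) for all `l` with
  `⟨a', v l⟩ = N_{a'}`, if `v l` agrees with `∑_{j ∈ J} c_j (v j)` in the coordinates `i` with
  `a' i ≠ 0`, then `∑_j c_j s(v j) ≤ s(v l)`, `s(w) = ∑_{a' i = 0} w_i`;
* `LocVIL v V σ` for `σ = lev v a = |a| / N_a`: for every `j1 ∈ V` either there is a variable (an `x_i`
  or a `y_i`) such that each of the rays `a'` with `N_{a'} > 0`, `|a'| / N_{a'} = σ` and
  `⟨a', v j1⟩ = N_{a'}` (the facets through `v j1`) satisfies one of
  - its facet is a simplex (`SimpVL v V a'`): the vectors `(v j i)_{a' i ≠ 0}`, for the `j ∈ V` with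
    `⟨a', v j⟩ = N_{a'}`, are linearly independent;
  - it is B1 in the direction of this variable (`B1VL v V i a'`): `a' i ≠ 0`, and exactly one of the
    `v j`, `j ∈ V`, with `⟨a', v j⟩ = N_{a'}` has `v j i ≠ 0`, and there `v j i = 1`;
  or each of these facets is a simplex or B1 in the direction of some `y_i`.

`IsLocalBIdeal f b` says that `b(s_1 + ⋯ + s_r) ∏ f_i ^ s_i` satisfies a functional equation of
Budur, Mustata and Saito with differential operators with formal power series coefficients; the
local Bernstein-Sato polynomial `b_{I,0}` is one of these polynomials `b`. `zetaI` is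
`𝕃 ^ (-n) ∑_{N ≥ 1} [𝒳_N] 𝕃 ^ (-n N) T ^ N` with `𝒳_N` the `N`-jets with origin `0` on which `I` has
order `N`. The finite set `S` is the same for all the fields `K` which contain `k`. -/
theorem result {k : Type} [Field k] [Algebra k ℂ] {ℓ r n : ℕ} (hℓ : 0 < ℓ) (π : Fin ℓ → Fin r)
    (m : Fin ℓ → Fin n → ℕ) (hinj : ∀ j j', π j = π j' → m j = m j' → j = j')
    (c : Fin ℓ → k) (hc : ∀ j, c j ≠ 0)
    (hnd : NondegIC π m (fun j => algebraMap k ℂ (c j))) (V : Finset (Fin ℓ))
    (hV : SpansI π m V) (hL : HypVIL (cay π m) V) :
    ∃ S : Finset (ℤ × ℤ),
      (∀ p ∈ S, p.1 < 0 ∧ 0 < p.2 ∧ (p.2 ∣ p.1 ∨ ∀ b : Polynomial ℂ,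
        IsLocalBIdeal (fun i => ∑ j ∈ Finset.univ.filter (fun j => π j = i),
          C (algebraMap k ℂ (c j)) * ∏ v, X v ^ m j v) b →
            ∃ i : ℤ, b.eval ((p.1 : ℂ) / p.2 - i) = 0)) ∧
      ∀ (K : Type) [Field K] [Algebra k K],
        zetaI (fun i => ∑ j ∈ Finset.univ.filter (fun j => π j = i),
          C (algebraMap k K (c j)) * ∏ v, X v ^ m j v) ∈ ratRing K S :=
  Pool.Agent.Y229.CF.nd_idealX' hℓ π m hinj c hc hnd V hV hL

end Pool.Agent.Results.MP_4e5fcd_ag.CompactFacesIdeals
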