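import Mathlib
import Pool.Agent.TH216.ID.Gn3

/-!
# The motivic monodromy conjecture at the origin for ideals with generic coefficients

Let `I = (f_1, ..., f_r)`, `f_i = ∑_{π j = i} c_j x ^ (m_j) + h_i`, be an ideal of `k[x_1, ..., x_n]`,
`k ⊂ ℂ` a field. The `h_i` are ARBITRARY polynomials over a subfield `F ⊂ k` whose exponents are in
the Newton polyhedra `conv {m_j, π j = i} + ℝ_{≥ 0} ^ n`, and the coefficients `c_j ∈ k` are generic:
`g(c) ≠ 0` for a certain nonzero polynomial `g` with coefficients in `F` (`k = F` is allowed). So only
the coefficients at the vertices of the Newton polyhedra of the `f_i` (and as many others as one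
wants) have to be generic. The intersection of the `f_i = 0` need not be complete, the scheme `V(I)`
may have arbitrary singularities, and the vectors `(m_j, e_{π j})` may be linearly dependent.

The condition on the exponents concerns the facets of the Newton polyhedron of `∑ y_i f_i` (in the
variables `x`, `y`) with `N_a > 0`. Facets which are pyramids with an apex `y_i x ^ (m_j)` are
arbitrary. Every other candidate pole `-|a| / N_a` is shared with a face which contains a simplex
which is not B1, or at every vertex the facets with this candidate pole are simplices or B1 in a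
common direction (or simplices or pyramids with an apex `y_i x ^ (m_j)`). In particular this holds
if the Newton polyhedron is simplicial and all the exponents of the `h_i` on a facet are in the
convex hull of the exponents `(m_j, e_{π j})` on it.

Then the local motivic zeta function of `I` at the origin,
`𝕃 ^ (-n) ∑_{N ≥ 1} [𝒳_N] (𝕃 ^ (-n) T) ^ N` with `𝒳_N` the `N`-jets with origin `0` on which `I`
has order `N`, lies in the ring generated by `T` and finitely many `1 / (1 - 𝕃 ^ a T ^ b)` with
`a < 0 < b` and `a / b` a ROOT of the local Bernstein-Sato polynomial of the ideal `I` at the origin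
(Budur, Mustata and Saito), not only modulo integers.

Method. As for hypersurfaces with generic coefficients, applied to the jets of `(x, y)` on which
`∑ y_i f_i` has order `N` and leading coefficient `1`, with `x(0) = 0` and `y` arbitrary: the
functional equation of the Bernstein-Sato polynomial of `I` for coefficients `c_j` which are
algebraically independent over `F` becomes a multiplicative identity for counting series, and the
classes of the zero sets of the face polynomials satisfy one linear relation for each variable which
has exponent `1` in one monomial of a face and does not occur in the others.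
-/

set_option autoImplicit false

namespace Pool.Agent.Results.MP_4e5fcd_ag.GenericCoefficients

open MvPolynomial Pool.Agent.W428.MOT Pool.Agent.W749.JI Pool.Agent.TH216.HDI

/-- **The motivic monodromy conjecture at the origin (Bernstein-Sato form, exact roots) for the
ideals `(f_1, ..., f_r)`, `f_i = ∑_{π j = i} c_j x ^ (m_j) + h_i`, with generic coefficients `c_j`.**

`gens π m c h` are the polynomials `f_i`. `InPolyI π m h` says that the exponents of `h_i` are in the
Newton polyhedron `conv {m_j, π j = i} + ℝ_{≥ 0} ^ n`. `cay π m j = (m_j, e_{π j})` are the exponents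
of `∑ y_i ∑_{π j = i} c_j x ^ (m_j)`, a polynomial in the variables `x_1, …, x_n, y_1, …, y_r`, and
`ysum h = ∑ y_i h_i`.

With `v = cay π m` and `h' = ysum h`, `HypI v h'` says that for every ray `a` of the normal fan of the
Newton polyhedron of the `v j` (`IsRay v a`) with `N_a := ordA v a = min_j ⟨a, v j⟩ > 0` one of the
following holds:
* `YApex v h' a`: the facet is B1 in the direction of some `y_i` (`B1Dir`, see below);
* `|a| / N_a = |a'| / N_{a'}` for some `a' ∈ ℕ ^ (n + r)` with `N_{a'} > 0` and `NonB1 v True a'`: there
  is a set `J` of `#{i | a' i ≠ 0}` elements with `⟨a', v j⟩ = N_{a'}` for `j ∈ J` such that the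
  vectors `(v j i)_{a' i ≠ 0}`, `j ∈ J`, are linearly independent, such that no variable with
  `a' i ≠ 0` occurs in exactly one of the monomials of exponents `v j`, `j ∈ J`, and there with
  exponent `1`, and such that (a condition only if some `a' i = 0`) for all `l` with
  `⟨a', v l⟩ = N_{a'}`, if `v l` agrees with `∑_{j ∈ J} c_j (v j)` in the coordinates `i` with
  `a' i ≠ 0`, then `∑_j c_j s(v j) ≤ s(v l)`, `s(w) = ∑_{a' i = 0} w_i`;
* `LocI v h' σ` for `σ = lev v a = |a| / N_a`: for every `v j1` either there is a variable (an `x_i` or
  a `y_i`) such that each of the rays `a'` with `N_{a'} > 0`, `|a'| / N_{a'} = σ` and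
  `⟨a', v j1⟩ = N_{a'}` (the facets through `v j1`) satisfies one of
  - its facet is a simplex (`Simp v h' a'`): the vectors `(v j i)_{a' i ≠ 0}`, for the `j` with
    `⟨a', v j⟩ = N_{a'}`, are linearly independent, and the exponents `w` of `h'` with
    `⟨a', w⟩ = N_{a'}` are in the convex hull of the `v j`;
  - it is B1 in the direction of this variable (`B1Dir v h' i a'`): `a' i ≠ 0`, and among the
    monomials of the face of `a'` (those of exponents `v j` and those of `h'` of weight `N_{a'}`)
    exactly one is divisible by the variable; this one has an exponent `v j0` with `v j0 i = 1` (it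
    may also occur in `h'`);
  or each of these facets is a simplex or B1 in the direction of some `y_i`.

`IsLocalBIdeal f b` says that `b(s_1 + ⋯ + s_r) ∏ f_i ^ s_i` satisfies a functional equation of
Budur, Mustata and Saito with differential operators with formal power series coefficients; the
local Bernstein-Sato polynomial `b_{I,0}` is one of these polynomials `b`. `zetaI` is
`𝕃 ^ (-n) ∑_{N ≥ 1} [𝒳_N] 𝕃 ^ (-n N) T ^ N` with `𝒳_N` the `N`-jets with origin `0` on which `I` has
order `N`. The finite set `S` is the same for all the fields `K` which contain `k`. -/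
theorem result {F : Type} [Field F] [Algebra F ℂ] {ℓ r n : ℕ} (hℓ : 0 < ℓ) (π : Fin ℓ → Fin r)
    (m : Fin ℓ → Fin n → ℕ) (hinj : ∀ j j', π j = π j' → m j = m j' → j = j')
    (h : Fin r → MvPolynomial (Fin n) F) (hh : InPolyI π m h) (hL : HypI (cay π m) (ysum h)) :
    ∃ g : MvPolynomial (Fin ℓ) F, g ≠ 0 ∧ ∀ (k : Type) [Field k] [Algebra F k] [Algebra k ℂ]
      [IsScalarTower F k ℂ] (c : Fin ℓ → k), aeval c g ≠ 0 →
      ∃ S : Finset (ℤ × ℤ),
        (∀ p ∈ S, p.1 < 0 ∧ 0 < p.2 ∧ ∀ b : Polynomial ℂ,
          IsLocalBIdeal (gens π m (fun j => algebraMap k ℂ (c j)) h) b →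
            b.eval ((p.1 : ℂ) / p.2) = 0) ∧
        ∀ (K : Type) [Field K] [Algebra k K],
          zetaI (fun i => MvPolynomial.map (algebraMap k K) (gens π m c h i)) ∈ ratRing K S :=
  Pool.Agent.TH216.ID.ideal_gen hℓ π m hinj h hh hL

end Pool.Agent.Results.MP_4e5fcd_ag.GenericCoefficients
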