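import Mathlib
import Pool.Agent.X271.IdCmp

/-!
# The motivic monodromy conjecture for ideals generated by compositions with generic coefficients

Let `k ⊂ ℂ` be a field and let `I = (f_1, …, f_P) ⊂ k[x_1, …, x_n]` be a nonzero ideal, such that the
polynomial `g = ∑_i u_i f_i(x)` in the variables `x, u` is stably generic: for some `κ ≥ 0` the
polynomial `g + y_1 z_1 + ⋯ + y_κ z_κ` becomes, by an automorphism of the polynomial ring which fixes
the origin, a polynomial `F = ∑_j c_j X ^ (v j) + h` with generic coefficients `c_j` at given exponents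
(for instance at the vertices of its Newton polyhedron) and arbitrary further terms `h`. Under a
condition on the facets of this ONE Newton polyhedron we prove the motivic monodromy conjecture at the
origin for `I` in its strong form: the local motivic zeta function of `I` lies in the ring generated by
`T` and finitely many `1 / (1 - 𝕃 ^ a T ^ b)`, where `a / b` is a root of every polynomial `b(s)` which
satisfies the functional equation of Budur, Mustata and Saito of `f_1, …, f_P` with differential
operators with formal power series coefficients at the origin, in particular of the local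
Bernstein-Sato polynomial of `I`. By Budur, Mustata and Saito `exp(2 π i a / b)` is then an eigenvalue of
the monodromy of the specialization complex.

Main case: `∑_i u_i f_i(x) = Φ(x, u, p_1, …, p_κ)` with `p_i(0) = 0`, where `Φ` and the `p_i` have generic
coefficients at given exponents, for instance `f_i = Φ_i(x, p_1(x), …, p_κ(x))`, `i = 1, …, P`. Examples
are the ideals generated by arbitrary products of powers `x ^ (u_j) ∏_i p_i ^ (e_(j, i))` of generic
polynomials `p_1, …, p_κ`, and by sums of such products with generic coefficients. They are in general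
degenerate with respect to their Newton polyhedra, in all coordinates. The case `κ = 0` is the
theorem `GenericCoefficients` of this problem.

Method. A functional equation of `f_1, …, f_P` with `b(s)` gives one of `g` with `(s + 1) b(s)`, and the
zeta function of `I` is obtained from `(1 - 𝕃⁻¹ T) Z_g(T)`, where `Z_g(T)` counts the jets with origin in
`{x = 0}` and angular component `1`. For `Z_g(T)` the theorem for compositions with generic
coefficients at the origin (`MP_9321be_ag.GenericCompositionsLocal`) is proved in a stronger form: the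
denominator of `(1 - 𝕃⁻¹ T) Z_g(T)` contains only factors `1 - 𝕃 ^ a T ^ b`, `(a, b) ≠ (-1, 1)`, such that
`a / b` is a root of `c(s)` for every functional equation with `(s + 1) c(s)`. For this the levels
`|a| / N_a` of the facets are needed with the factor `s + 1` removed from the functional equation: they
are neither `0` nor `1` in the Newton polyhedra of `F` and of `F + y z`.
-/

set_option autoImplicit false

namespace Pool.Agent.Results.MP_4e5fcd_ag.GenericCompositionIdeals

open MvPolynomial Pool.Agent.W428.MOT Pool.Agent.X271.MD Pool.Agent.TH216.HD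
open Pool.Agent.W749.JI (IsLocalBIdeal zetaI)

/-- The strong form of the motivic monodromy conjecture for the ideal `(f_1, …, f_P)` at the origin,
with the finite set `S` of pairs `(a, b)` of integers: `b > 0` and `a / b` is a root of every
polynomial `b` satisfying the functional equation of Budur, Mustata and Saito of `f_1, …, f_P` with
differential operators with formal power series coefficients at the origin (`IsLocalBIdeal`); and for
every field `K ⊃ k` the local motivic zeta function
`zetaI f = 𝕃 ^ (-n) ∑_{N ≥ 1} [X_N] (𝕃 ^ (-n) T) ^ N` of the problem (`X_N` the `N`-jets with origin `0` on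
which the ideal has order `N`) is in the ring `ratRing K S` generated over `K₀(Var_K)[𝕃⁻¹]` by `T`
and the `1 / (1 - 𝕃 ^ a T ^ b)`, `(a, b) ∈ S`. -/
def StrongMCI {k : Type} [Field k] [Algebra k ℂ] {n P : ℕ} (f : Fin P → MvPolynomial (Fin n) k)
    (S : Finset (ℤ × ℤ)) : Prop :=
  (∀ p ∈ S, 0 < p.2 ∧ ∀ b : Polynomial ℂ,
    IsLocalBIdeal (fun i => map (algebraMap k ℂ) (f i)) b → b.eval ((p.1 : ℂ) / p.2) = 0) ∧
  ∀ (K : Type) [Field K] [Algebra k K],
    zetaI (fun i => map (algebraMap k K) (f i)) ∈ ratRing K S

/-- `g = ∑_i u_i f_i(x)`, in the variables `x, u` -/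
noncomputable def usum {k : Type} [Field k] {n P : ℕ} (f : Fin P → MvPolynomial (Fin n) k) :
    MvPolynomial (Fin (n + P)) k :=
  ∑ i, X (Fin.natAdd n i) * rename (Fin.castAdd P) (f i)

/-- **The motivic monodromy conjecture at the origin, with roots of the local Bernstein-Sato
polynomial, for stably generic ideals and for ideals of compositions with generic coefficients.**

`InPoly v w`: `w` is in the Newton polyhedron `conv {v j} + ℝ_{≥ 0} ^ N`. `IsRay v a`: `a` spans a ray of the
normal fan of this polyhedron; `ordA v a = N_a = min_j ⟨a, v j⟩`; `lev v a = |a| / N_a`. `stab g κ` is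
`g + y_1 z_1 + ⋯ + y_κ z_κ`.

`HypCL v h`: for every ray `a` with `N_a > 0` one of the following holds:
* `|a| / N_a = |a'| / N_{a'}` for some `a' ∈ ℕ ^ N` with `N_{a'} > 0` and `NonB1 v True a'`: there is a set
  `J` of `#{i | a' i ≠ 0}` elements with `⟨a', v j⟩ = N_{a'}` for `j ∈ J` such that the vectors
  `(v j i)_{a' i ≠ 0}`, `j ∈ J`, are linearly independent, such that no variable `x_i` with
  `a' i ≠ 0` occurs in exactly one of the monomials `x ^ (v j)`, `j ∈ J`, and there with exponent `1`,
  and such that (a condition only if some `a' i = 0`) for all `l` with `⟨a', v l⟩ = N_{a'}`, if `v l`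
  agrees with `∑_{j ∈ J} c_j (v j)` in the coordinates `i` with `a' i ≠ 0`, then
  `∑_j c_j s(v j) ≤ s(v l)`, `s(w) = ∑_{a' i = 0} w_i`;
* `LocC v h σ`, `σ = |a| / N_a`: there is a variable `x_i` such that every ray `a'` with `N_{a'} > 0` and
  `|a'| / N_{a'} = σ` is a simplex (`Simp v h a'`: the vectors `(v j i)_{a' i ≠ 0}`, for the `j` with
  `⟨a', v j⟩ = N_{a'}`, are linearly independent, and the exponents of `h` in this face are in the
  convex hull of the `v j`) or B1 in the direction `i` (`B1Dir v h i a'`: `a' i ≠ 0`, and exactly one of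
  the monomials of `v` and `h` of minimal `a'`-weight is divisible by `x_i`; it is some `x ^ (v j0)` with
  `v j0 i = 1`).

First part (stably generic ideals). Let the `v j ≠ 0` be different, let the exponents of `h` be
in the Newton polyhedron of the `v j`, and let `HypCL v h` hold. There is `g ≠ 0` such that for all
coefficients `c_j ∈ k` with `g(c) ≠ 0`: if the `f_i` are not all zero and `φ` is an automorphism of
`k[x, u, y, z]` which fixes the origin, with
`φ(∑_i u_i f_i + ∑_{i ≤ κ} y_i z_i) = ∑_j c_j X ^ (v j) + h`, and there is no facet with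
`|a| = N_a > 0`, then `StrongMCI f S` for a finite set `S`.

Second part (compositions). Let exponents `m_j` of monomials in `x_1, …, x_n, u_1, …, u_P, z_1, …, z_κ`
be given, `j = 1, …, r`, in groups `π j ∈ {0, …, κ}`, `κ ≥ 1`, different in each group, nonzero in
the group `0`, and polynomials `H_0, …, H_κ` over `k`, where the exponents of `H_i` are in the Newton
polyhedron of the `m_j` with `π j = i` or `π j = 0` (`InPolyG π m i`). For `a ∈ k ^ r` let
`tup π m a H i = ∑_{π j = i} a_j X ^ (m_j) + H_i`. `exps π m` are the exponents `m_j`, `π j = 0`, and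
`y_i m_j`, `π j = i`, of `Φ + ∑ y_i l_i`, and `sumH H = H_0 + ∑ y_i H_i`. If `HypCL (exps π m) (sumH H)` holds
then there is `g ≠ 0` such that for all `a ∈ k ^ r` with `g(a) ≠ 0`: let `Φ = tup π m a H 0` and
`tup π m a H i = c_i z_i - p_i(x, u)`, `c_i ≠ 0`, `p_i(0) = 0`, for `i = 1, …, κ`, and let the
coefficients of the monomials `z_1, …, z_κ` in `Φ` be zero; if the `f_i` are not all zero and
`∑_i u_i f_i(x) = Φ(x, u, p_1 / c_1, …, p_κ / c_κ)`, then `StrongMCI f S` for a finite set `S` of pairs
`(a, b)` with `a < 0 < b`. (For `Φ = ∑_i u_i Φ_i(x, z)` and `p_i = p_i(x)` this is the ideal generated by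
the compositions `f_i(x) = Φ_i(x, p_1(x) / c_1, …, p_κ(x) / c_κ)`.) -/
theorem result (k : Type) [Field k] [Algebra k ℂ] {n P κ r : ℕ} (hr : 0 < r) :
    (∀ v : Fin r → Fin ((n + P) + (κ + κ)) → ℕ, Function.Injective v → (∀ j, v j ≠ 0) →
      ∀ h : MvPolynomial (Fin ((n + P) + (κ + κ))) k, (∀ w ∈ h.support, InPoly v w) →
      HypCL v h →
      ∃ g : MvPolynomial (Fin r) k, g ≠ 0 ∧ ∀ c : Fin r → k, eval c g ≠ 0 →
      ∀ f : Fin P → MvPolynomial (Fin n) k, (∃ i, f i ≠ 0) →
      ∀ φ : MvPolynomial (Fin ((n + P) + (κ + κ))) k ≃ₐ[k]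
        MvPolynomial (Fin ((n + P) + (κ + κ))) k,
      (∀ i, constantCoeff (φ (X i)) = 0) →
      φ (stab (usum f) κ) = (∑ j, C (c j) * ∏ i, X i ^ v j i) + h →
      (∀ a : Fin ((n + P) + (κ + κ)) → ℕ, IsRay v a → 0 < ordA v a → ∑ i, a i ≠ ordA v a) →
      ∃ S : Finset (ℤ × ℤ), StrongMCI f S) ∧
    (0 < κ → ∀ (π : Fin r → Fin (κ + 1)) (m : Fin r → Fin ((n + P) + κ) → ℕ),
      (∀ j j', π j = π j' → m j = m j' → j = j') → (∀ j, π j = 0 → m j ≠ 0) →
      ∀ H : Fin (κ + 1) → MvPolynomial (Fin ((n + P) + κ)) k,
      (∀ i, ∀ w ∈ (H i).support, InPolyG π m i w) → HypCL (exps π m) (sumH H) →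
      ∃ g : MvPolynomial (Fin r) k, g ≠ 0 ∧ ∀ a : Fin r → k, eval a g ≠ 0 →
      ∀ (c : Fin κ → k) (p : Fin κ → MvPolynomial (Fin (n + P)) k), (∀ i, c i ≠ 0) →
      (∀ i, constantCoeff (p i) = 0) →
      (∀ i : Fin κ, tup π m a H i.succ = C (c i) * X (Fin.natAdd (n + P) i) -
        rename (Fin.castAdd κ) (p i)) →
      (∀ i : Fin κ, coeff (Finsupp.single (Fin.natAdd (n + P) i) 1) (tup π m a H 0) = 0) →
      ∀ f : Fin P → MvPolynomial (Fin n) k, (∃ i, f i ≠ 0) →
      usum f = aeval (Fin.append X fun i => C (c i)⁻¹ * p i) (tup π m a H 0) →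
      ∃ S : Finset (ℤ × ℤ), (∀ p ∈ S, p.1 < 0) ∧ StrongMCI f S) := by
  refine ⟨fun v hv hv0 h hh hC => ?_, fun hκ π m hinj hm H hH hC => ?_⟩
  · obtain ⟨g, hg, hgc⟩ := stableI hr v hv hv0 h hh hC
    exact ⟨g, hg, fun c hc f hf φ hφ0 hφ h1 => hgc c hc f hf φ hφ0 hφ h1⟩
  · obtain ⟨g, hg, hgc⟩ := compsI hr hκ π m hinj hm H hH hC
    refine ⟨g, hg, fun a ha c p hc hp0 hl hlin f hf hff => ?_⟩
    obtain ⟨S, hS, hz⟩ := hgc a ha c p hc hp0 hl hlin f hf hff
    exact ⟨S, fun p hp => (hS p hp).1, fun p hp => (hS p hp).2, hz⟩

end Pool.Agent.Results.MP_4e5fcd_ag.GenericCompositionIdeals
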