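import Pool.Agent.X271.IdRed

/-!
# The motivic monodromy conjecture for ideals: reduction to linear forms and binomials

Let `I = (f_j)` be an ideal of `k[x_1, …, x_n]`, `k ⊂ ℂ` a field, and let `u` be a new variable. The
ideals `I' = (f_j + a (u - g), u - g)` of `k[x, u]` and `I'' = (I', w)` of `k[x, u, w]`, where `g(0) = 0`,
are related to `I` in the following way. The local motivic zeta functions
`Z(T) = ∑_N [𝒳_N] 𝕃 ^ (- n N) T ^ N` at the origin satisfy
`Z_I(T) = 𝕃⁻¹ ((𝕃 + 1) Z_{I'}(𝕃 T) - Z_{I''}(𝕃² T))`, so that no new denominators arise although the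
Grothendieck ring has zero divisors, and if `β(s)` satisfies the local functional equation of Budur,
Mustata and Saito for generators of `I`, then `β(s + 1)` satisfies one for generators of `I'`. So the
motivic monodromy conjecture for `I'` and `I''` implies the one for `I`.

With `g = x_a x_b` and monomials of the `f_j` which are divisible by `x_a x_b`, one can lower the degrees
of the monomials. Repeating this, one gets ideals which are generated by linear forms and by
binomials `x_c - x_a x_b`. So the motivic monodromy conjecture for all ideals, at the origin, in the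
form with the roots of the Bernstein-Sato polynomial (modulo integers, which by the theorem of Budur,
Mustata and Saito are the eigenvalues of the monodromy of Verdier's specialization, or with the
roots themselves) is equivalent to the one for the ideals generated by linear forms and by binomials
`x_c - x_a x_b`; in particular it is enough to treat ideals generated by polynomials of degree at
most `2`.
-/

set_option autoImplicit false

namespace Pool.Agent.Results.MP_4e5fcd_ag.QuadraticIdealsMotivic

open MvPolynomial Pool.Agent.W428.MOT Pool.Agent.Y229 Pool.Agent.X159.QI Pool.Agent.X271.IQ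

/-- **Reduction of the motivic monodromy conjecture for ideals (at the origin) to ideals generated by
linear forms and binomials `x_c - x_a x_b`.** All ideals are given by finite families `f` of polynomials,
not all zero, in a finite number of variables over a field `k ⊂ ℂ`, with `f_i(0) = 0`.

`zetaO f = ∑_N [𝒳_N] 𝕃 ^ (- n N) T ^ N` is the local motivic zeta function of the ideal `(f_i)` at the
origin: `𝒳_N` is the set of the `N`-jets with origin `0` on which the ideal has the order `N` (the
normalization of the problem has a further factor `𝕃 ^ (- n)`). `ratRing K S` is the ring generated by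
`T` and the `1 / (1 - 𝕃 ^ a T ^ b)`, `(a, b) ∈ S`, over the Grothendieck ring `𝓜_K`. `IsPoleO z s₀`:
`𝕃 ^ (- s₀)` is a pole of `z`, as in the problem: `z` is not in the ring generated by `T` and all
`1 / (1 - 𝕃 ^ a T ^ b)` with `b > 0` and `a / b ≠ s₀`.

`AllB P f s₀`: the condition `P s₀ β` holds for all the polynomials `β` which satisfy the functional
equation of Budur, Mustata and Saito, with differential operators with formal power series
coefficients at the origin, for some finite system of generators of the ideal `(f_i)` of `ℂ[x]`
(`IsLocalBI`); the local Bernstein-Sato polynomial of the ideal is the one of least degree. Here `P`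
is `PWeak` (`s₀` is a root of `β` modulo integers) or `PStrong` (`s₀` is a root of `β`).
`PoleI P f`: `AllB P f s₀` holds whenever `𝕃 ^ (- s₀)` is a pole of the zeta function of the ideal over a
field `K ⊃ k`. `MonoI P f`: there is a finite set `S` of pairs `(a, b)`, `b > 0`, with `AllB P f (a / b)`
such that the zeta function over every field `K ⊃ k` is in `ratRing K S`.

(1) `PoleI P` holds for all these ideals over `k` if and only if it holds for those whose generators
are of degree at most one or of the form `x_c - x_a x_b`, `a`, `b`, `c` variables; the same for `MonoI P`.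

(2) Let `g(0) = g'(0) = 0`. `nf f j a g` are the generators `f_i`, with `f_j + a (u - g)` in the place of
`f_j`, and `u - g`, `u` a new variable. Then `PoleI P` (`MonoI P`) for the families `nf f j a g` and
`nf (nf f j a g) j' a' g'` implies `PoleI P` (`MonoI P`) for `f`; the zeta functions are related by
`Z(T) = 𝕃⁻¹ ((𝕃 + 1) Z'(𝕃 T) - Z''(𝕃² T))`; and if `β(s)` satisfies the local functional equation for
polynomials `h_i ∈ ℂ[x]`, then `β(s + 1)` satisfies the one for the `h_i` and `u - g` (`nf0 h g`). -/
theorem result (k : Type) [Field k] [Algebra k ℂ] (P : ℚ → Polynomial ℂ → Prop)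
    (hP : P = PWeak ∨ P = PStrong) :
    ((∀ (σ ι : Type) [Fintype σ] [Fintype ι] (f : ι → MvPolynomial σ k),
        (∃ i, f i ≠ 0) → (∀ i, constantCoeff (f i) = 0) → PoleI P f) ↔
      ∀ (σ ι : Type) [Fintype σ] [Fintype ι] (f : ι → MvPolynomial σ k),
        (∃ i, f i ≠ 0) → (∀ i, constantCoeff (f i) = 0) →
          (∀ i, (f i).totalDegree ≤ 1 ∨ ∃ a b c : σ, f i = X c - X a * X b) → PoleI P f) ∧
    ((∀ (σ ι : Type) [Fintype σ] [Fintype ι] (f : ι → MvPolynomial σ k),
        (∃ i, f i ≠ 0) → (∀ i, constantCoeff (f i) = 0) → MonoI P f) ↔
      ∀ (σ ι : Type) [Fintype σ] [Fintype ι] (f : ι → MvPolynomial σ k),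
        (∃ i, f i ≠ 0) → (∀ i, constantCoeff (f i) = 0) →
          (∀ i, (f i).totalDegree ≤ 1 ∨ ∃ a b c : σ, f i = X c - X a * X b) → MonoI P f) ∧
    (∀ (σ ι : Type) [Fintype σ] [Finite ι] [DecidableEq ι] (f : ι → MvPolynomial σ k) (j : ι)
      (a g : MvPolynomial σ k) (j' : Option ι) (a' g' : MvPolynomial (Option σ) k),
      constantCoeff g = 0 → constantCoeff g' = 0 →
      (PoleI P (nf f j a g) → PoleI P (nf (nf f j a g) j' a' g') → PoleI P f) ∧
      (MonoI P (nf f j a g) → MonoI P (nf (nf f j a g) j' a' g') → MonoI P f) ∧
      zetaO f = PowerSeries.C (((Lu k)⁻¹ : (MK k)ˣ) : MK k) *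
        ((PowerSeries.C ((Lu k : (MK k)ˣ) : MK k) + 1) *
          PowerSeries.rescale ((Lu k : (MK k)ˣ) : MK k) (zetaO (nf f j a g)) -
        PowerSeries.rescale ((Lu k : (MK k)ˣ) : MK k)
          (PowerSeries.rescale ((Lu k : (MK k)ˣ) : MK k)
            (zetaO (nf (nf f j a g) j' a' g'))))) ∧
    ∀ (σ ι : Type) [Finite σ] [Fintype ι] (h : ι → MvPolynomial σ ℂ) (β : Polynomial ℂ),
      IsLocalBI h β → ∀ g : MvPolynomial σ ℂ,
        IsLocalBI (nf0 h g) (β.comp (Polynomial.X + 1)) := by
  have hkc : CharZero k := RingHom.charZero (algebraMap k ℂ)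
  have hS : Shift P := by
    rcases hP with rfl | rfl
    · exact shift_weak
    · exact shift_strong
  refine ⟨gen_red fun σ ι _ _ _ f j a g hg => pole_step hS f j a g hg none 0 0 (map_zero _),
    gen_red fun σ ι _ _ _ f j a g hg => mono_step hS f j a g hg none 0 0 (map_zero _),
    fun σ ι _ _ _ f j a g j' a' g' hg hg' => ⟨pole_step hS f j a g hg j' a' g' hg',
      mono_step hS f j a g hg j' a' g' hg', rel_two f j a g hg j' a' g' hg'⟩,
    fun σ ι _ _ h β hβ g => local_step hβ g⟩

end Pool.Agent.Results.MP_4e5fcd_ag.QuadraticIdealsMotivic
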